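import Mathlib

/-!
# Lower boundary independent broadcast number and spanning trees

We prove that for every finite connected graph `G` the lower boundary independent broadcast
number of `G` is the minimum of the lower boundary independent broadcast numbers of its
spanning trees.
-/

set_option autoImplicit false

namespace Pool.Agent.H42.Old.BroadcastTrees

open SimpleGraph

variable {V : Type*}

/-- `f` is a broadcast on `G`: for at least two vertices, `f v` is at most the diameter and at most
the eccentricity of `v`; for exactly one vertex, `f v = 1`. -/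
def IsBroadcast (G : SimpleGraph V) (f : V → ℕ) : Prop :=
  (Nontrivial V → ∀ v, f v ≤ G.diam ∧ (f v : ℕ∞) ≤ G.eccent v) ∧
    (Subsingleton V → ∀ v, f v = 1)

/-- The vertex `u` hears the broadcast `f` from the broadcasting vertex `v`. -/
def Hears (G : SimpleGraph V) (f : V → ℕ) (u v : V) : Prop :=
  0 < f v ∧ G.dist u v ≤ f v

/-- `f` is boundary independent: a vertex hearing `f` from two different broadcasting vertices is
at distance at least `f u` from every broadcasting vertex `u`. -/
def BnIndependent (G : SimpleGraph V) (f : V → ℕ) : Prop :=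
  ∀ x, (∃ u v, u ≠ v ∧ Hears G f x u ∧ Hears G f x v) → ∀ u, 0 < f u → f u ≤ G.dist x u

/-- `f` is a maximal bn-independent broadcast: no bn-independent broadcast is larger. -/
def MaximalBn (G : SimpleGraph V) (f : V → ℕ) : Prop :=
  IsBroadcast G f ∧ BnIndependent G f ∧
    ∀ g, IsBroadcast G g → BnIndependent G g → (∀ v, f v ≤ g v) → g = f

/-- The lower boundary independent broadcast number: the minimum cost of a maximal
bn-independent broadcast. -/
noncomputable def ibn [Fintype V] (G : SimpleGraph V) : ℕ :=
  sInf {c | ∃ f : V → ℕ, MaximalBn G f ∧ ∑ v, f v = c}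

/-! ### Reformulations -/

/-- Pairwise separation. -/
def Sep (G : SimpleGraph V) (f : V → ℕ) : Prop :=
  ∀ u v, u ≠ v → 0 < f u → 0 < f v → f u + f v ≤ G.dist u v

/-- Domination. -/
def Dom (G : SimpleGraph V) (f : V → ℕ) : Prop :=
  ∀ x, ∃ v, 0 < f v ∧ G.dist x v ≤ f v

/-- Every broadcasting vertex has another one whose ball meets its ball. -/
def Touch (G : SimpleGraph V) (f : V → ℕ) : Prop :=
  ∀ v, 0 < f v → ∃ u, u ≠ v ∧ 0 < f u ∧ G.dist u v ≤ f u + f v

lemma exists_between {G : SimpleGraph V} (hG : G.Connected) (u v : V) (k : ℕ)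
    (hk : k ≤ G.dist u v) : ∃ w, G.dist u w = k ∧ G.dist w v = G.dist u v - k := by
  obtain ⟨p, hp⟩ := hG.exists_walk_length_eq_dist u v
  refine ⟨p.getVert k, ?_, ?_⟩
  · apply le_antisymm
    · have := G.dist_le (p.take k)
      simpa [Walk.take_length, hp, hk] using this
    · have h1 := G.dist_le (p.drop k)
      have h2 := hG.dist_triangle (u := u) (v := p.getVert k) (w := v)
      rw [Walk.drop_length, hp] at h1
      omega
  · have h1 := G.dist_le (p.drop k)
    have h0 := G.dist_le (p.take k)
    have h2 := hG.dist_triangle (u := u) (v := p.getVert k) (w := v)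
    rw [Walk.drop_length, hp] at h1
    rw [Walk.take_length, hp] at h0
    omega

lemma bn_iff_sep {G : SimpleGraph V} (hG : G.Connected) (f : V → ℕ) :
    BnIndependent G f ↔ Sep G f := by
  constructor
  · intro h u v huv hu hv
    by_contra hlt
    push Not at hlt
    obtain ⟨x, hx1, hx2⟩ := exists_between hG u v (min (f u) (G.dist u v)) (min_le_right _ _)
    have hxu : G.dist x u = min (f u) (G.dist u v) := by rw [G.dist_comm]; exact hx1
    have h1 := h x ⟨u, v, huv, ⟨hu, by rw [hxu]; exact min_le_left _ _⟩, ⟨hv, by rw [hx2]; omega⟩⟩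
      v hv
    rw [hx2] at h1
    omega
  · rintro h x ⟨u, v, huv, ⟨hu, hxu⟩, ⟨hv, hxv⟩⟩ w hw
    have h1 := h u v huv hu hv
    have h2 := hG.dist_triangle (u := u) (v := x) (w := v)
    rw [G.dist_comm (u := u) (v := x)] at h2
    by_cases hwu : w = u
    · subst hwu; omega
    · have h3 := h u w (Ne.symm hwu) hu hw
      have h4 := hG.dist_triangle (u := u) (v := x) (w := w)
      rw [G.dist_comm (u := u) (v := x)] at h4
      omega


lemma dist_le_diam' [Finite V] {G : SimpleGraph V} (hG : G.Connected) (u v : V) :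
    G.dist u v ≤ G.diam := by
  have := hG.nonempty
  exact dist_le_diam (connected_iff_ediam_ne_top.mp hG)

lemma le_eccent {G : SimpleGraph V} (hG : G.Connected) {u v : V} {k : ℕ}
    (h : k ≤ G.dist v u) : (k : ℕ∞) ≤ G.eccent v := by
  calc (k : ℕ∞) ≤ (G.dist v u : ℕ∞) := by exact_mod_cast h
    _ = G.edist v u := (hG v u).coe_dist_eq_edist
    _ ≤ G.eccent v := edist_le_eccent

/-- A separated, dominating, touching function is a maximal bn-independent broadcast. -/
lemma maximal_of_touch [Finite V] [Nontrivial V] {G : SimpleGraph V} (hG : G.Connected)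
    (f : V → ℕ) (hd : Dom G f) (hs : Sep G f) (ht : Touch G f) : MaximalBn G f := by
  refine ⟨⟨fun _ v => ?_, fun h => absurd h (not_subsingleton V)⟩, (bn_iff_sep hG f).2 hs, ?_⟩
  · rcases Nat.eq_zero_or_pos (f v) with h0 | hv
    · rw [h0]; exact ⟨Nat.zero_le _, by simp⟩
    · obtain ⟨u, huv, hu, _⟩ := ht v hv
      have h1 := hs v u (Ne.symm huv) hv hu
      exact ⟨le_trans (by omega) (dist_le_diam' hG v u), le_eccent hG (u := u) (by omega)⟩
  · intro g hgb hgi hfg
    have hg := (bn_iff_sep hG g).1 hgi
    funext x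
    by_contra hne
    have hlt : f x < g x := lt_of_le_of_ne (hfg x) (Ne.symm hne)
    rcases Nat.eq_zero_or_pos (f x) with h0 | hx
    · obtain ⟨v, hv, hxv⟩ := hd x
      have hvx : x ≠ v := by rintro rfl; omega
      have h1 := hg x v hvx (by omega) (lt_of_lt_of_le hv (hfg v))
      have h2 := hfg v
      omega
    · obtain ⟨u, hux, hu, hd'⟩ := ht x hx
      have h1 := hg u x hux (lt_of_lt_of_le hu (hfg u)) (by omega)
      have h2 := hfg u
      omega

/-- The single ball of radius the eccentricity is a maximal bn-independent broadcast. -/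
lemma maximal_single [Finite V] [Nontrivial V] {G : SimpleGraph V} (hG : G.Connected)
    (f : V → ℕ) (w : V) (hw : ∀ v, v ≠ w → f v = 0) (hle : (f w : ℕ∞) ≤ G.eccent w)
    (hdm : f w ≤ G.diam) (hd : Dom G f) : MaximalBn G f := by
  have hcov : ∀ x, G.dist x w ≤ f w := by
    intro x
    obtain ⟨v, hv, hxv⟩ := hd x
    have : v = w := by by_contra h; rw [hw v h] at hv; exact absurd hv (lt_irrefl _)
    subst this; exact hxv
  have hecc : G.eccent w ≤ (f w : ℕ∞) := by
    rw [eccent_le_iff]
    intro v
    rw [← (hG w v).coe_dist_eq_edist, G.dist_comm]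
    exact_mod_cast hcov v
  refine ⟨⟨fun _ v => ?_, fun h => absurd h (not_subsingleton V)⟩, (bn_iff_sep hG f).2 ?_, ?_⟩
  · by_cases h : v = w
    · subst h; exact ⟨hdm, hle⟩
    · rw [hw v h]; exact ⟨Nat.zero_le _, by simp⟩
  · intro u v huv hu hv
    have h1 : u = w := by by_contra h; rw [hw u h] at hu; exact absurd hu (lt_irrefl _)
    have h2 : v = w := by by_contra h; rw [hw v h] at hv; exact absurd hv (lt_irrefl _)
    exact absurd (h1.trans h2.symm) huv
  · intro g hgb hgi hfg
    have hg := (bn_iff_sep hG g).1 hgi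
    have hgw : g w = f w := by
      apply le_antisymm _ (hfg w)
      have := le_trans ((hgb.1 inferInstance w).2) hecc
      exact_mod_cast this
    funext x
    by_cases hx : x = w
    · rw [hx, hgw]
    · rw [hw x hx]
      by_contra hne
      have hwpos : 0 < f w := by
        obtain ⟨v, hv, _⟩ := hd x
        have : v = w := by by_contra h; rw [hw v h] at hv; exact absurd hv (lt_irrefl _)
        subst this; exact hv
      have h1 := hg x w hx (Nat.pos_of_ne_zero hne) (by rw [hgw]; exact hwpos)
      have h2 := hcov x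
      omega

lemma ecc_ne_zero' [Nontrivial V] {G : SimpleGraph V} (x : V) : (1 : ℕ∞) ≤ G.eccent x := by
  rw [Order.one_le_iff_ne_zero]; exact eccent_ne_zero x

/-- A maximal bn-independent broadcast dominates, and either touches or is a single ball. -/
lemma of_maximal [Finite V] [Nontrivial V] {G : SimpleGraph V} (hG : G.Connected)
    (f : V → ℕ) (hf : MaximalBn G f) :
    Sep G f ∧ Dom G f ∧ (Touch G f ∨ ∃ w, ∀ v, v ≠ w → f v = 0) := by
  classical
  obtain ⟨hb, hi, hm⟩ := hf
  have hs := (bn_iff_sep hG f).1 hi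
  have hdiam : 1 ≤ G.diam := by
    obtain ⟨a, b, hab⟩ := exists_pair_ne V
    exact le_trans (hG.pos_dist_of_ne hab) (dist_le_diam' hG a b)
  have hdom : Dom G f := by
    intro x
    by_contra hcon
    push Not at hcon
    have hx0 : f x = 0 := by
      by_contra h
      have := hcon x (Nat.pos_of_ne_zero h)
      simp at this
    have hsep : Sep G (Function.update f x 1) := by
      intro u v huv hu hv
      by_cases hux : u = x
      · subst hux
        have hvx : v ≠ u := Ne.symm huv
        rw [Function.update_of_ne hvx] at hv ⊢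
        rw [Function.update_self]
        have := hcon v hv
        omega
      · by_cases hvx : v = x
        · subst hvx
          rw [Function.update_of_ne hux] at hu ⊢
          rw [Function.update_self]
          have := hcon u hu
          rw [G.dist_comm] at this
          omega
        · rw [Function.update_of_ne hux] at hu ⊢
          rw [Function.update_of_ne hvx] at hv ⊢
          exact hs u v huv hu hv
    have := hm (Function.update f x 1) ⟨fun _ v => ?_, fun h => absurd h (not_subsingleton V)⟩
      ((bn_iff_sep hG _).2 hsep) ?_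
    · have h1 := congrFun this x
      rw [Function.update_self] at h1
      omega
    · by_cases hvx : v = x
      · subst hvx; rw [Function.update_self]; exact ⟨hdiam, ecc_ne_zero' v⟩
      · rw [Function.update_of_ne hvx]; exact hb.1 inferInstance v
    · intro v
      by_cases hvx : v = x
      · subst hvx; rw [Function.update_self]; omega
      · rw [Function.update_of_ne hvx]
  refine ⟨hs, hdom, ?_⟩
  by_cases ht : Touch G f
  · exact Or.inl ht
  right
  unfold Touch at ht
  push Not at ht
  obtain ⟨v, hv, hno⟩ := ht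
  refine ⟨v, fun u huv => ?_⟩
  by_contra hu0
  have hu : 0 < f u := Nat.pos_of_ne_zero hu0
  have hfar : f v + 1 ≤ G.dist v u := by
    have := hs v u (Ne.symm huv) hv hu
    omega
  have hsep : Sep G (Function.update f v (f v + 1)) := by
    intro a b hab ha hb'
    by_cases hav : a = v
    · subst hav
      have hba : b ≠ a := Ne.symm hab
      rw [Function.update_of_ne hba] at hb' ⊢
      rw [Function.update_self]
      have := hno b hba hb'
      rw [G.dist_comm] at this
      omega
    · by_cases hbv : b = v
      · subst hbv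
        rw [Function.update_of_ne hav] at ha ⊢
        rw [Function.update_self]
        have := hno a hav ha
        omega
      · rw [Function.update_of_ne hav] at ha ⊢
        rw [Function.update_of_ne hbv] at hb' ⊢
        exact hs a b hab ha hb'
  have := hm (Function.update f v (f v + 1))
    ⟨fun _ x => ?_, fun h => absurd h (not_subsingleton V)⟩ ((bn_iff_sep hG _).2 hsep) ?_
  · have h1 := congrFun this v
    rw [Function.update_self] at h1
    omega
  · by_cases hxv : x = v
    · subst hxv; rw [Function.update_self]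
      exact ⟨le_trans hfar (dist_le_diam' hG _ _), le_eccent hG hfar⟩
    · rw [Function.update_of_ne hxv]; exact hb.1 inferInstance x
  · intro x
    by_cases hxv : x = v
    · subst hxv; rw [Function.update_self]; omega
    · rw [Function.update_of_ne hxv]


lemma exists_boundary {G : SimpleGraph V} (hG : G.Connected) (p : V → Prop) {a b : V}
    (ha : p a) (hb : ¬ p b) : ∃ x y, G.Adj x y ∧ p x ∧ ¬ p y := by
  obtain ⟨w⟩ := hG a b
  obtain ⟨d, _, h1, h2⟩ := w.exists_boundary_dart {x | p x} ha hb
  exact ⟨d.fst, d.snd, d.adj, h1, h2⟩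

lemma center_aux {G : SimpleGraph V} (hG : G.Connected) {a b : ℕ} (hb : 0 < b) (u v : V)
    (h : G.dist u v < a + b) :
    ∃ w, G.dist w u + 1 ≤ b ∧ G.dist w v ≤ a := by
  obtain ⟨w, h1, h2⟩ := exists_between hG u v (min (b - 1) (G.dist u v)) (min_le_right _ _)
  refine ⟨w, ?_, ?_⟩
  · rw [G.dist_comm, h1]; omega
  · rw [h2]; omega

/-- The key step: two balls overlapping in more than their boundary can be replaced by a single
ball with the same total cost which reaches another ball, if there is one. -/
lemma exists_center {G : SimpleGraph V} (hG : G.Connected) (f : V → ℕ) (hd : Dom G f)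
    (u v : V) (hu : 0 < f u) (hv : 0 < f v) (hlt : G.dist u v < f u + f v) :
    ∃ w, G.dist w u ≤ f v ∧ G.dist w v ≤ f u ∧
      ∀ z₀, z₀ ≠ u → z₀ ≠ v → z₀ ≠ w → 0 < f z₀ →
        ∃ z, z ≠ u ∧ z ≠ v ∧ z ≠ w ∧ 0 < f z ∧
          (G.dist z w ≤ f z + (f u + f v) ∨
            (w ≠ u ∧ w ≠ v ∧ G.dist z w ≤ f z + (f u + f v + f w))) := by
  -- the case where the centre is itself another broadcasting vertex
  have key : ∀ w, G.dist w u ≤ f v → G.dist w v ≤ f u → w ≠ u → w ≠ v → 0 < f w →
      ∀ z₀, z₀ ≠ u → z₀ ≠ v → z₀ ≠ w → 0 < f z₀ →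
        ∃ z, z ≠ u ∧ z ≠ v ∧ z ≠ w ∧ 0 < f z ∧
          (G.dist z w ≤ f z + (f u + f v) ∨
            (w ≠ u ∧ w ≠ v ∧ G.dist z w ≤ f z + (f u + f v + f w))) := by
    intro w hwu hwv hu' hv' hw z₀ h1 h2 h3 h4
    by_cases hall : G.dist z₀ w ≤ f u + f v + f w - 1
    · exact ⟨z₀, h1, h2, h3, h4, Or.inr ⟨hu', hv', by omega⟩⟩
    · obtain ⟨x, y, hxy, hx, hy⟩ := exists_boundary hG
        (fun x => G.dist x w ≤ f u + f v + f w - 1) (a := w) (b := z₀) (by simp) hall
      obtain ⟨z, hz, hyz⟩ := hd y
      have hxy' : G.dist y x = 1 := dist_eq_one_iff_adj.2 hxy.symm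
      have hzu : z ≠ u := by
        rintro rfl
        have := hG.dist_triangle (u := y) (v := z) (w := w)
        have h5 := G.dist_comm (u := z) (v := w)
        omega
      have hzv : z ≠ v := by
        rintro rfl
        have := hG.dist_triangle (u := y) (v := z) (w := w)
        have h5 := G.dist_comm (u := z) (v := w)
        omega
      have hzw : z ≠ w := by
        rintro rfl
        omega
      refine ⟨z, hzu, hzv, hzw, hz, Or.inr ⟨hu', hv', ?_⟩⟩
      have h6 := hG.dist_triangle (u := z) (v := y) (w := w)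
      have h7 := hG.dist_triangle (u := y) (v := x) (w := w)
      have h8 := G.dist_comm (u := z) (v := y)
      omega
  obtain ⟨w0, h0u, h0v⟩ := center_aux hG (a := f u) (b := f v) hv u v hlt
  obtain ⟨w1, h1v, h1u⟩ := center_aux hG (a := f v) (b := f u) hu v u
    (by rw [G.dist_comm]; omega)
  by_cases hS : ∀ x, G.dist x u ≤ f u ∨ G.dist x v ≤ f v
  · refine ⟨w0, by omega, h0v, fun z₀ h1 h2 h3 h4 => ⟨z₀, h1, h2, h3, h4, Or.inl ?_⟩⟩
    have h5 := hG.dist_triangle (u := z₀) (v := u) (w := w0)
    have h6 := hG.dist_triangle (u := z₀) (v := v) (w := w0)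
    have h7 := G.dist_comm (u := u) (v := w0)
    have h8 := G.dist_comm (u := v) (v := w0)
    rcases hS z₀ with h | h <;> omega
  · push Not at hS
    obtain ⟨b, hb⟩ := hS
    obtain ⟨x, y, hxy, hx, hy⟩ := exists_boundary hG
      (fun x => G.dist x u ≤ f u ∨ G.dist x v ≤ f v) (a := u) (b := b)
      (by left; simp) (by push Not; exact hb)
    push Not at hy
    obtain ⟨z, hz, hyz⟩ := hd y
    have hxy' : G.dist y x = 1 := dist_eq_one_iff_adj.2 hxy.symm
    have hzu : z ≠ u := by rintro rfl; omega
    have hzv : z ≠ v := by rintro rfl; omega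
    rcases hx with hx | hx
    · by_cases hw : w0 ≠ u ∧ w0 ≠ v ∧ 0 < f w0
      · exact ⟨w0, by omega, h0v, key w0 (by omega) h0v hw.1 hw.2.1 hw.2.2⟩
      · refine ⟨w0, by omega, h0v, fun z₀ h1 h2 h3 h4 => ⟨z, hzu, hzv, ?_, hz, Or.inl ?_⟩⟩
        · rintro rfl; exact hw ⟨hzu, hzv, hz⟩
        · have h5 := hG.dist_triangle (u := z) (v := y) (w := w0)
          have h6 := hG.dist_triangle (u := y) (v := x) (w := w0)
          have h7 := hG.dist_triangle (u := x) (v := u) (w := w0)
          have h8 := G.dist_comm (u := u) (v := w0)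
          have h9 := G.dist_comm (u := z) (v := y)
          omega
    · by_cases hw : w1 ≠ u ∧ w1 ≠ v ∧ 0 < f w1
      · exact ⟨w1, h1u, by omega, key w1 h1u (by omega) hw.1 hw.2.1 hw.2.2⟩
      · refine ⟨w1, h1u, by omega, fun z₀ h1 h2 h3 h4 => ⟨z, hzu, hzv, ?_, hz, Or.inl ?_⟩⟩
        · rintro rfl; exact hw ⟨hzu, hzv, hz⟩
        · have h5 := hG.dist_triangle (u := z) (v := y) (w := w1)
          have h6 := hG.dist_triangle (u := y) (v := x) (w := w1)
          have h7 := hG.dist_triangle (u := x) (v := v) (w := w1)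
          have h8 := G.dist_comm (u := v) (v := w1)
          have h9 := G.dist_comm (u := z) (v := y)
          omega

open Classical in
/-- Replace the balls around `u` and `v` by one around `w`. -/
noncomputable def merge (f : V → ℕ) (u v w : V) (x : V) : ℕ :=
  (if x = u ∨ x = v then 0 else f x) + (if x = w then f u + f v else 0)

open Classical in
lemma merge_step [Fintype V] {G : SimpleGraph V} (hG : G.Connected) (f : V → ℕ) (hd : Dom G f)
    (ht : Touch G f) (u v : V) (huv : u ≠ v) (hu : 0 < f u) (hv : 0 < f v)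
    (hlt : G.dist u v < f u + f v) :
    ∃ g : V → ℕ, Dom G g ∧ (Touch G g ∨ ∃ w, ∀ x, x ≠ w → g x = 0) ∧
      ∑ x, g x = ∑ x, f x ∧
      (Finset.univ.filter (fun x => 0 < g x)).card <
        (Finset.univ.filter (fun x => 0 < f x)).card := by
  obtain ⟨w, hwu, hwv, hw⟩ := exists_center hG f hd u v hu hv hlt
  have hge : ∀ x, x ≠ u → x ≠ v → f x ≤ merge f u v w x := by
    intro x h1 h2; simp [merge, h1, h2]
  have hgew : f u + f v ≤ merge f u v w w := by simp [merge]
  have heq : ∀ x, x ≠ u → x ≠ v → x ≠ w → merge f u v w x = f x := by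
    intro x h1 h2 h3; simp [merge, h1, h2, h3]
  have hz : ∀ x, x ≠ w → 0 < merge f u v w x → x ≠ u ∧ x ≠ v ∧ 0 < f x := by
    intro x h1 h2
    by_cases h3 : x = u ∨ x = v
    · simp [merge, h1, h3] at h2
    · push Not at h3
      refine ⟨h3.1, h3.2, ?_⟩
      rwa [heq x h3.1 h3.2 h1] at h2
  refine ⟨merge f u v w, ?_, ?_, ?_, ?_⟩
  · intro x
    obtain ⟨z, hz1, hz2⟩ := hd x
    by_cases h1 : z = u
    · subst h1
      refine ⟨w, by omega, ?_⟩
      have h5 := hG.dist_triangle (u := x) (v := z) (w := w)
      have h6 := G.dist_comm (u := z) (v := w)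
      omega
    by_cases h2 : z = v
    · subst h2
      refine ⟨w, by omega, ?_⟩
      have h5 := hG.dist_triangle (u := x) (v := z) (w := w)
      have h6 := G.dist_comm (u := z) (v := w)
      omega
    have := hge z h1 h2
    exact ⟨z, by omega, by omega⟩
  · by_cases hex : ∃ z₀, z₀ ≠ w ∧ 0 < merge f u v w z₀
    · left
      obtain ⟨z₀, h1, h2⟩ := hex
      intro x hx
      by_cases hxw : x = w
      · subst hxw
        obtain ⟨h3, h4, h5⟩ := hz z₀ h1 h2
        obtain ⟨z, h6, h7, h8, h9, h10⟩ := hw z₀ h3 h4 h1 h5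
        have := hge z h6 h7
        refine ⟨z, h8, by omega, ?_⟩
        rcases h10 with h10 | ⟨h11, h12, h10⟩
        · omega
        · have h13 : merge f u v x x = f x + (f u + f v) := by simp [merge, h11, h12]
          omega
      · obtain ⟨h3, h4, h5⟩ := hz x hxw hx
        obtain ⟨z, h6, h7, h8⟩ := ht x h5
        have hx' := hge x h3 h4
        by_cases hzu : z = u
        · subst hzu
          refine ⟨w, Ne.symm hxw, by omega, ?_⟩
          have := hG.dist_triangle (u := w) (v := z) (w := x)
          omega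
        by_cases hzv : z = v
        · subst hzv
          refine ⟨w, Ne.symm hxw, by omega, ?_⟩
          have := hG.dist_triangle (u := w) (v := z) (w := x)
          omega
        have := hge z hzu hzv
        exact ⟨z, h6, by omega, by omega⟩
    · right
      push Not at hex
      exact ⟨w, fun x hx => by have := hex x hx; omega⟩
  · have h1 : ∑ x, merge f u v w x = ∑ x, (if x = u ∨ x = v then 0 else f x) + (f u + f v) := by
      simp [merge, Finset.sum_add_distrib]
    have h2 : ∀ x, f x = (if x = u ∨ x = v then 0 else f x) +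
        ((if x = u then f u else 0) + (if x = v then f v else 0)) := by
      intro x
      by_cases hxu : x = u
      · subst hxu; simp [huv]
      · by_cases hxv : x = v
        · subst hxv; simp [hxu]
        · simp [hxu, hxv]
    rw [h1, Finset.sum_congr rfl (fun x _ => h2 x)]
    simp [Finset.sum_add_distrib]
  · have h1 : Finset.univ.filter (fun x => 0 < merge f u v w x) ⊆
        insert w (((Finset.univ.filter (fun x => 0 < f x)).erase u).erase v) := by
      intro x hx
      rw [Finset.mem_filter] at hx
      rw [Finset.mem_insert]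
      by_cases hxw : x = w
      · exact Or.inl hxw
      · right
        obtain ⟨h3, h4, h5⟩ := hz x hxw hx.2
        simp [h3, h4, h5]
    have h2 := Finset.card_le_card h1
    have h3 := Finset.card_insert_le w
      (((Finset.univ.filter (fun x => 0 < f x)).erase u).erase v)
    have hu' : u ∈ Finset.univ.filter (fun x => 0 < f x) := by simp [hu]
    have hv' : v ∈ (Finset.univ.filter (fun x => 0 < f x)).erase u := by
      simp [hv, Ne.symm huv]
    have h4 := Finset.card_erase_of_mem hv'
    have h5 := Finset.card_erase_of_mem hu'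
    have h6 : 0 < ((Finset.univ.filter (fun x => 0 < f x)).erase u).card :=
      Finset.card_pos.2 ⟨v, hv'⟩
    omega

open Classical in
/-- Every dominating and touching function can be turned into a maximal bn-independent broadcast
of no larger cost. -/
lemma exists_maximal_le [Fintype V] [Nontrivial V] {G : SimpleGraph V} (hG : G.Connected) :
    ∀ (n : ℕ) (f : V → ℕ), (Finset.univ.filter (fun x => 0 < f x)).card = n → Dom G f →
      (Touch G f ∨ ∃ w, ∀ x, x ≠ w → f x = 0) →
      ∃ g : V → ℕ, MaximalBn G g ∧ ∑ x, g x ≤ ∑ x, f x := by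
  intro n
  induction n using Nat.strong_induction_on with
  | _ n ih =>
    intro f hn hd ht
    rcases ht with ht | ⟨w, hw⟩
    · by_cases hs : Sep G f
      · exact ⟨f, maximal_of_touch hG f hd hs ht, le_refl _⟩
      · unfold Sep at hs
        push Not at hs
        obtain ⟨u, v, huv, hu, hv, hlt⟩ := hs
        obtain ⟨g, h1, h2, h3, h4⟩ := merge_step hG f hd ht u v huv hu hv hlt
        obtain ⟨g', h5, h6⟩ := ih _ (by omega) g rfl h1 h2
        exact ⟨g', h5, by omega⟩
    · -- a single ball
      have hcov : ∀ x, G.dist x w ≤ f w := by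
        intro x
        obtain ⟨v, hv, hxv⟩ := hd x
        have : v = w := by by_contra h; rw [hw v h] at hv; exact absurd hv (lt_irrefl _)
        subst this; exact hxv
      obtain ⟨z, hz⟩ := exists_edist_eq_eccent_of_finite (G := G) w
      have hz' : G.eccent w = (G.dist w z : ℕ∞) := by
        rw [← hz, (hG w z).coe_dist_eq_edist]
      refine ⟨fun x => if x = w then G.dist w z else 0, ?_, ?_⟩
      · apply maximal_single hG _ w
        · intro v hv; simp [hv]
        · simp [hz']
        · simp only [if_true]; exact dist_le_diam' hG w z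
        · intro x
          have hpos : 0 < G.dist w z := by
            have := ecc_ne_zero' (G := G) w
            rw [hz'] at this
            exact_mod_cast this
          refine ⟨w, by simpa using hpos, ?_⟩
          simp only [if_true]
          have : (G.dist x w : ℕ∞) ≤ (G.dist w z : ℕ∞) := by
            rw [← hz', G.dist_comm, (hG w x).coe_dist_eq_edist]
            exact edist_le_eccent
          exact_mod_cast this
      · rw [Finset.sum_ite_eq' Finset.univ w]
        simp only [Finset.mem_univ, if_true]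
        have h1 := hcov z
        rw [G.dist_comm] at h1
        exact le_trans h1 (Finset.single_le_sum (f := f) (fun _ _ => Nat.zero_le _)
          (Finset.mem_univ w))


/-! ### A spanning tree that preserves domination and touching -/

/-- A graph given by a parent function along which an integer potential drops by one is acyclic. -/
lemma parent_acyclic (F : SimpleGraph V) (par : V → V) (φ : V → ℤ)
    (h : ∀ x y, F.Adj x y → (par x = y ∧ φ y = φ x - 1) ∨ (par y = x ∧ φ x = φ y - 1)) :
    F.IsAcyclic := by
  classical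
  intro v c hc
  obtain ⟨m, hm, hmax⟩ := Finset.exists_max_image c.support.toFinset φ
    ⟨v, by simp⟩
  rw [List.mem_toFinset] at hm
  have hc' : (c.rotate m hm).IsCycle := hc.rotate hm
  have hnn : ¬ (c.rotate m hm).Nil := hc'.not_nil
  have h1 : F.Adj m (c.rotate m hm).snd := Walk.adj_snd hnn
  have h2 : F.Adj (c.rotate m hm).penultimate m := Walk.adj_penultimate hnn
  have hsupp : ∀ x, x ∈ (c.rotate m hm).support → φ x ≤ φ m := by
    intro x hx
    apply hmax
    rw [List.mem_toFinset]
    exact (Walk.mem_support_rotate_iff c m hm).1 hx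
  have e1 : (c.rotate m hm).snd = par m := by
    rcases h _ _ h1 with ⟨h3, _⟩ | ⟨_, h4⟩
    · exact h3.symm
    · have h5 : φ (c.rotate m hm).snd ≤ φ m :=
        hsupp _ (Walk.getVert_mem_support (c.rotate m hm) 1)
      omega
  have e2 : (c.rotate m hm).penultimate = par m := by
    rcases h _ _ h2 with ⟨_, h4⟩ | ⟨h3, _⟩
    · have h5 : φ (c.rotate m hm).penultimate ≤ φ m :=
        hsupp _ (Walk.getVert_mem_support (c.rotate m hm) ((c.rotate m hm).length - 1))
      omega
    · exact h3.symm
  exact hc'.snd_ne_penultimate (e1.trans e2.symm)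


/-- Iterating the parent function reaches a root, along a walk of controlled length. -/
lemma walk_to_root {T : SimpleGraph V} (f : V → ℕ) (par : V → V) (φ : V → ℤ)
    (hroot : ∀ x, 0 < f x → par x = x ∧ φ x = -(f x : ℤ))
    (hpar : ∀ x, ¬ 0 < f x → T.Adj x (par x) ∧ φ (par x) = φ x - 1)
    (B : ℤ) (hB : ∀ x, -B < φ x) :
    ∀ (n : ℕ) (x : V), φ x + B ≤ n → 0 < f (par^[n] x) ∧
      ∃ p : T.Walk x (par^[n] x), (p.length : ℤ) = φ x + f (par^[n] x) := by
  intro n
  induction n with
  | zero =>
    intro x hx
    have := hB x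
    simp at hx
    omega
  | succ n ih =>
    intro x hx
    by_cases hfx : 0 < f x
    · obtain ⟨h1, h2⟩ := hroot x hfx
      have h3 : ∀ k : ℕ, par^[k] x = x := fun k => Function.iterate_fixed h1 k
      rw [h3]
      exact ⟨hfx, Walk.nil, by simp [h2]⟩
    · obtain ⟨h1, h2⟩ := hpar x hfx
      have h3 := ih (par x) (by push_cast at hx; omega)
      rw [Function.iterate_succ_apply]
      obtain ⟨h4, q, hq⟩ := h3
      refine ⟨h4, Walk.cons h1 q, ?_⟩
      rw [Walk.length_cons]
      push_cast
      omega

lemma exists_tree [Finite V] {G : SimpleGraph V} (hG : G.Connected) (f : V → ℕ)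
    (hs : Sep G f) (hd : Dom G f) :
    ∃ T : SimpleGraph V, T ≤ G ∧ T.IsTree ∧ Dom T f ∧ (Touch G f → Touch T f) := by
  classical
  have := Fintype.ofFinite V
  have hV := hG.nonempty
  -- the potential
  have hex : ∀ x, ∃ v, 0 < f v ∧ ∀ u, 0 < f u →
      (G.dist x v : ℤ) - f v ≤ (G.dist x u : ℤ) - f u := by
    intro x
    obtain ⟨v₀, hv₀, _⟩ := hd x
    obtain ⟨v, hv, hmin⟩ := Finset.exists_min_image
      (Finset.univ.filter (fun v => 0 < f v)) (fun v => (G.dist x v : ℤ) - f v)
      ⟨v₀, by simp [hv₀]⟩
    refine ⟨v, by simpa using hv, fun u hu => hmin u (by simp [hu])⟩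
  choose c hc1 hc2 using hex
  set φ : V → ℤ := fun x => (G.dist x (c x) : ℤ) - f (c x) with hφ
  have hφle : ∀ x u, 0 < f u → φ x ≤ (G.dist x u : ℤ) - f u := fun x u hu => hc2 x u hu
  have hφ0 : ∀ x, φ x ≤ 0 := by
    intro x
    obtain ⟨v, hv, hxv⟩ := hd x
    have := hφle x v hv
    omega
  have hφroot : ∀ v, 0 < f v → φ v = -(f v : ℤ) := by
    intro v hv
    apply le_antisymm
    · have := hφle v v hv
      simpa using this
    · show -(f v : ℤ) ≤ (G.dist v (c v) : ℤ) - f (c v)
      by_cases h : c v = v
      · rw [h]; simp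
      · have := hs v (c v) (Ne.symm h) hv (hc1 v)
        omega
  have hstep : ∀ x, ¬ 0 < f x → ∃ y, G.Adj x y ∧ φ y = φ x - 1 := by
    intro x hx
    have hne : x ≠ c x := by
      intro h; rw [h] at hx; exact hx (hc1 x)
    have hpos := hG.pos_dist_of_ne hne
    obtain ⟨y, hy1, hy2⟩ := exists_between hG x (c x) 1 hpos
    have hadj : G.Adj x y := dist_eq_one_iff_adj.1 hy1
    refine ⟨y, hadj, le_antisymm ?_ ?_⟩
    · have := hφle y (c x) (hc1 x)
      have h3 : φ x = (G.dist x (c x) : ℤ) - f (c x) := rfl
      omega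
    · have := hφle x (c y) (hc1 y)
      have h3 : φ y = (G.dist y (c y) : ℤ) - f (c y) := rfl
      have h4 := hG.dist_triangle (u := x) (v := y) (w := c y)
      omega
  choose! par₀ hpar₀ using hstep
  set par : V → V := fun x => if 0 < f x then x else par₀ x with hpar
  have hparroot : ∀ x, 0 < f x → par x = x := fun x hx => by simp [hpar, hx]
  have hparstep : ∀ x, ¬ 0 < f x → G.Adj x (par x) ∧ φ (par x) = φ x - 1 := by
    intro x hx
    have : par x = par₀ x := by simp only [hpar, hx, if_false]
    rw [this]; exact hpar₀ x hx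
  -- the forest of parents
  let F : SimpleGraph V :=
    { Adj := fun x y => x ≠ y ∧ (par x = y ∨ par y = x)
      symm := ⟨fun x y h => ⟨h.1.symm, h.2.symm⟩⟩
      loopless := ⟨fun x h => h.1 rfl⟩ }
  have hFadj : ∀ x y, F.Adj x y → (par x = y ∧ φ y = φ x - 1) ∨ (par y = x ∧ φ x = φ y - 1) := by
    rintro x y ⟨hne, h | h⟩
    · left
      have hx : ¬ 0 < f x := fun hx => hne ((hparroot x hx).symm.trans h)
      exact ⟨h, by rw [← h]; exact (hparstep x hx).2⟩
    · right
      have hy : ¬ 0 < f y := fun hy => hne (((hparroot y hy).symm.trans h).symm)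
      exact ⟨h, by rw [← h]; exact (hparstep y hy).2⟩
  have hFpar : ∀ x, ¬ 0 < f x → F.Adj x (par x) := by
    intro x hx
    exact ⟨(hparstep x hx).1.ne, Or.inl rfl⟩
  have hFG : F ≤ G := by
    rintro x y ⟨hne, h | h⟩
    · have hx : ¬ 0 < f x := fun hx => hne ((hparroot x hx).symm.trans h)
      rw [← h]; exact (hparstep x hx).1
    · have hy : ¬ 0 < f y := fun hy => hne (((hparroot y hy).symm.trans h).symm)
      rw [← h]; exact (hparstep y hy).1.symm
  have hFac : F.IsAcyclic := parent_acyclic F par φ hFadj
  -- the roots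
  set B : ℤ := (∑ x, (f x : ℤ)) + 1 with hBdef
  have hfB : ∀ x, (f x : ℤ) < B := by
    intro x
    have : (f x : ℤ) ≤ ∑ x, (f x : ℤ) :=
      Finset.single_le_sum (f := fun x => (f x : ℤ)) (fun _ _ => by positivity)
        (Finset.mem_univ x)
    omega
  have hB : ∀ x, -B < φ x := by
    intro x
    have h1 := hfB (c x)
    have h3 : φ x = (G.dist x (c x) : ℤ) - f (c x) := rfl
    omega
  set n := B.toNat with hn
  have hnB : ∀ x, φ x + B ≤ (n : ℤ) := by
    intro x
    have := hφ0 x
    have := Int.self_le_toNat B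
    omega
  set s : V → V := fun x => par^[n] x with hsdef
  have hwalk : ∀ T : SimpleGraph V, F ≤ T → ∀ x, 0 < f (s x) ∧
      ∃ p : T.Walk x (s x), (p.length : ℤ) = φ x + f (s x) := by
    intro T hT x
    exact walk_to_root f par φ (fun x hx => ⟨hparroot x hx, hφroot x hx⟩)
      (fun x hx => ⟨hT (hFpar x hx), (hparstep x hx).2⟩) B hB n x (hnB x)
  have hspar : ∀ x, s (par x) = s x := by
    intro x
    have h1 : s (par x) = par (s x) := by
      show par^[n] (par x) = par (par^[n] x)
      rw [← Function.iterate_succ_apply, Function.iterate_succ_apply']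
    rw [h1]
    exact hparroot _ (hwalk F le_rfl x).1
  have hsroot : ∀ v, 0 < f v → s v = v := fun v hv =>
    Function.iterate_fixed (hparroot v hv) n
  -- touching edges
  let E : SimpleGraph V :=
    { Adj := fun x y => G.Adj x y ∧ s x ≠ s y ∧ φ x + φ y + 1 ≤ 0
      symm := ⟨fun x y h => ⟨h.1.symm, h.2.1.symm, by have := h.2.2; omega⟩⟩
      loopless := ⟨fun x h => h.2.1 rfl⟩ }
  have hEG : E ≤ G := fun x y h => h.1
  obtain ⟨F₂, hFF₂, hF₂, hF₂ac, hF₂r⟩ :=
    exists_isAcyclic_reachable_eq_le_of_le_of_isAcyclic (G := F ⊔ E) (H := F) le_sup_left hFac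
  obtain ⟨T, hF₂T, hTG, hT⟩ := hG.exists_isTree_le_of_le_of_isAcyclic
    (hF₂.trans (sup_le hFG hEG)) hF₂ac
  have hFT : F ≤ T := hFF₂.trans hF₂T
  refine ⟨T, hTG, hT, ?_, ?_⟩
  · intro x
    obtain ⟨h1, p, hp⟩ := hwalk T hFT x
    refine ⟨s x, h1, ?_⟩
    have h2 := T.dist_le p
    have h3 := hφ0 x
    omega
  · intro ht v hv
    obtain ⟨u, huv, hu, hdist⟩ := ht v hv
    -- a geodesic from v to u
    obtain ⟨p, hp⟩ := hG.exists_walk_length_eq_dist v u
    have hpl : p.length ≤ f u + f v := by rw [hp, G.dist_comm]; exact hdist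
    -- first index leaving the cell of v
    have hexi : ∃ i, s (p.getVert (i + 1)) ≠ v := by
      refine ⟨p.length, ?_⟩
      rw [p.getVert_of_length_le (by omega), hsroot u hu]
      exact huv
    obtain ⟨i, hi1, hi2⟩ : ∃ i, s (p.getVert (i + 1)) ≠ v ∧ s (p.getVert i) = v := by
      refine ⟨Nat.find hexi, Nat.find_spec hexi, ?_⟩
      rcases Nat.eq_zero_or_pos (Nat.find hexi) with h0 | hpos
      · rw [h0, Walk.getVert_zero, hsroot v hv]
      · have := Nat.find_min hexi (m := Nat.find hexi - 1) (by omega)
        push Not at this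
        rwa [Nat.sub_add_cancel hpos] at this
    have hilt : i < p.length := by
      by_contra hle
      push Not at hle
      rw [p.getVert_of_length_le hle, hsroot u hu] at hi2
      exact huv hi2
    have hadj : G.Adj (p.getVert i) (p.getVert (i + 1)) := p.adj_getVert_succ hilt
    have hφi : φ (p.getVert i) ≤ (i : ℤ) - f v := by
      have h1 := hφle (p.getVert i) v hv
      have h2 := G.dist_le (p.take i)
      rw [Walk.take_length, G.dist_comm] at h2
      have h3 : min i p.length = i := by omega
      omega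
    have hφi' : φ (p.getVert (i + 1)) ≤ (p.length : ℤ) - (i + 1) - f u := by
      have h1 := hφle (p.getVert (i + 1)) u hu
      have h2 := G.dist_le (p.drop (i + 1))
      rw [Walk.drop_length] at h2
      omega
    have hE : E.Adj (p.getVert i) (p.getVert (i + 1)) :=
      ⟨hadj, by rw [hi2]; exact Ne.symm hi1, by omega⟩
    have hreach : F₂.Reachable (p.getVert i) (p.getVert (i + 1)) := by
      rw [hF₂r]
      exact Adj.reachable (Or.inr hE)
    obtain ⟨q⟩ := hreach
    obtain ⟨d, _, hd1, hd2⟩ := q.exists_boundary_dart {x | s x = v} hi2 hi1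
    have hd1' : s d.fst = v := hd1
    have hd2' : s d.snd ≠ v := hd2
    have hdE : E.Adj d.fst d.snd := by
      rcases hF₂ d.adj with h | h
      · exfalso
        rcases h.2 with h | h
        · apply hd2'; rw [← h, hspar]; exact hd1'
        · apply hd2'; rw [← hspar, h]; exact hd1'
      · exact h
    obtain ⟨h1, p1, hp1⟩ := hwalk T hFT d.fst
    obtain ⟨h2, p2, hp2⟩ := hwalk T hFT d.snd
    refine ⟨s d.snd, hd2', h2, ?_⟩
    have hTadj : T.Adj d.snd d.fst := (hF₂T d.adj).symm
    have h3 := T.dist_le ((p2.reverse.append (Walk.cons hTadj Walk.nil)).append p1)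
    rw [Walk.length_append, Walk.length_append, Walk.length_reverse, Walk.length_cons,
      Walk.length_nil] at h3
    have h4 := hdE.2.2
    have h5 : T.dist (s d.snd) (s d.fst) = T.dist (s d.snd) v := by rw [hd1']
    have h6 : f (s d.fst) = f v := by rw [hd1']
    omega

/-- **Main theorem.** For every finite connected graph `G`, the lower boundary independent
broadcast number of `G` is attained, and it is the minimum of the lower boundary independent
broadcast numbers of the spanning trees of `G`. -/
theorem result {V : Type*} [Fintype V] (G : SimpleGraph V) (hG : G.Connected) :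
    (∃ f : V → ℕ, MaximalBn G f ∧ ∑ v, f v = ibn G) ∧
      IsLeast {c | ∃ T : SimpleGraph V, T ≤ G ∧ T.IsTree ∧ ibn T = c} (ibn G) := by
  classical
  -- existence of maximal bn-independent broadcasts on connected graphs
  have hex : ∀ H : SimpleGraph V, H.Connected →
      ∃ f : V → ℕ, MaximalBn H f ∧ ∑ v, f v = ibn H := by
    intro H hH
    have hne : {c | ∃ f : V → ℕ, MaximalBn H f ∧ ∑ v, f v = c}.Nonempty := by
      rcases subsingleton_or_nontrivial V with hsub | hnt
      · have hV := hH.nonempty
        refine ⟨_, fun _ => 1, ⟨⟨fun h => absurd h (not_nontrivial V), fun _ _ => rfl⟩, ?_, ?_⟩,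
          rfl⟩
        · rintro x ⟨u, v, huv, _, _⟩
          exact absurd (Subsingleton.elim u v) huv
        · intro g hg _ _
          funext x
          exact hg.2 hsub x
      · obtain ⟨w⟩ := hH.nonempty
        obtain ⟨g, hg, _⟩ := exists_maximal_le hH _ (fun x => if x = w then H.diam + 1 else 0)
          rfl (fun x => ⟨w, by simp, by
            simp only [if_true]
            exact (dist_le_diam' hH x w).trans (Nat.le_succ _)⟩)
          (Or.inr ⟨w, fun x hx => by simp [hx]⟩)
        exact ⟨_, g, hg, rfl⟩
    exact Nat.sInf_mem hne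
  have hle : ∀ (H : SimpleGraph V) (f : V → ℕ), MaximalBn H f → ibn H ≤ ∑ v, f v :=
    fun H f hf => Nat.sInf_le ⟨f, hf, rfl⟩
  refine ⟨hex G hG, ?_⟩
  rcases subsingleton_or_nontrivial V with hsub | hnt
  · have hV := hG.nonempty
    refine ⟨⟨G, le_rfl, IsTree.of_subsingleton, rfl⟩, ?_⟩
    rintro c ⟨T, _, _, rfl⟩
    have : T = G := Subsingleton.elim _ _
    rw [this]
  · have hmono : ∀ T : SimpleGraph V, T ≤ G → T.Connected → ibn G ≤ ibn T := by
      intro T hTG hT
      obtain ⟨f, hf, hfc⟩ := hex T hT
      obtain ⟨_, hd, ht⟩ := of_maximal hT f hf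
      have hd' : Dom G f := by
        intro x
        obtain ⟨v, hv, hxv⟩ := hd x
        exact ⟨v, hv, ((hT x v).dist_anti hTG).trans hxv⟩
      have ht' : Touch G f ∨ ∃ w, ∀ x, x ≠ w → f x = 0 := by
        rcases ht with ht | h
        · left
          intro v hv
          obtain ⟨u, h1, h2, h3⟩ := ht v hv
          exact ⟨u, h1, h2, ((hT u v).dist_anti hTG).trans h3⟩
        · exact Or.inr h
      obtain ⟨g, hg, hgf⟩ := exists_maximal_le hG _ f rfl hd' ht'
      exact (hle G g hg).trans (hgf.trans hfc.le)
    have hlb : ∀ c ∈ {c | ∃ T : SimpleGraph V, T ≤ G ∧ T.IsTree ∧ ibn T = c}, ibn G ≤ c := by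
      rintro c ⟨T, hTG, hT, rfl⟩
      exact hmono T hTG hT.connected
    refine ⟨?_, hlb⟩
    obtain ⟨f, hf, hfc⟩ := hex G hG
    obtain ⟨hs, hd, ht⟩ := of_maximal hG f hf
    obtain ⟨T, hTG, hT, hdT, htT⟩ := exists_tree hG f hs hd
    refine ⟨T, hTG, hT, le_antisymm ?_ (hlb _ ⟨T, hTG, hT, rfl⟩)⟩
    obtain ⟨g, hg, hgf⟩ := exists_maximal_le hT.connected _ f rfl hdT (ht.imp_left htT)
    exact (hle T g hg).trans (hgf.trans hfc.le)

end Pool.Agent.H42.Old.BroadcastTrees
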